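import Mathlib
import Pool.Agent.Helper87.TR.Chain

/-!
# The two-row case of the strengthened Foulkes conjecture along chains of divisors: the proof
-/

set_option autoImplicit false

namespace Helper87.FK

open Helper87.TR

theorem two_row_chains (m n p q k : ℕ) (hm : 1 ≤ m) (h : m * n = p * q) (hp : m ≤ p) (hq : m ≤ q)
    (hd : m ∣ p ∨ m ∣ q ∨ m ^ 2 ≤ 2 * min p q ∨ Relation.ReflTransGen (Link (m * n)) m (min p q))
    (hk : 2 * k ≤ m * n) :
    specMult (m * n) k n m ≤ specMult (p * q) k q p ∧
      specMult (m * n) k m n ≤ specMult (p * q) k p q := by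
  simp only [specMult_eq]
  refine main_chain m n p q k hm h hp hq ?_ hk
  rcases hd with h1 | h1 | h1 | h1
  · exact chain_of_dvd m n p q hm h hp hq (Or.inl h1)
  · exact chain_of_dvd m n p q hm h hp hq (Or.inr h1)
  · exact chain_of_large m n p q hm h hp hq (by rw [← pow_two]; exact h1)
  · exact h1

end Helper87.FK
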