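import Mathlib
import Pool.Agent.Helper87.TA.FinalC
import Pool.Agent.Helper87.TC.Final
import Pool.Agent.Helper87.TR.Stmt

/-!
# The dimension of the space of equivariant maps as a short definition
-/

set_option autoImplicit false

namespace Helper87.FK

open Helper87.TR Helper87.TA Helper87.TC Module

/-- the dimension of `Hom (W, ℂ[X])`, `X` the set partitions into `b` blocks of size `s` -/
noncomputable def homDim {N : ℕ} {W : Type} [AddCommGroup W] [Module ℂ W]
    (ρ : Representation ℂ (Equiv.Perm (Fin N)) W) (b s : ℕ) : ℕ :=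
  Set.finrank ℂ {T : W → SetPart N b s → ℂ | IsLinearMap ℂ T ∧
    ∀ (g : Equiv.Perm (Fin N)) (w : W) (P P' : SetPart N b s),
      P'.1 = P.1.image (Finset.image g) → T (ρ g w) P' = T w P}

theorem homDim_eq {N : ℕ} {W : Type} [AddCommGroup W] [Module ℂ W]
    (ρ : Representation ℂ (Equiv.Perm (Fin N)) W) (b s : ℕ) :
    homDim ρ b s = finrank ℂ (Eqv ρ b s) := by
  let L : (W →ₗ[ℂ] (SetPart N b s → ℂ)) →ₗ[ℂ] (W → SetPart N b s → ℂ) :=
    { toFun := fun T => T
      map_add' := fun _ _ => rfl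
      map_smul' := fun _ _ => rfl }
  have hL : Function.Injective L := DFunLike.coe_injective
  have hset : {T : W → SetPart N b s → ℂ | IsLinearMap ℂ T ∧
      ∀ (g : Equiv.Perm (Fin N)) (w : W) (P P' : SetPart N b s),
        P'.1 = P.1.image (Finset.image g) → T (ρ g w) P' = T w P} =
      (((Eqv ρ b s).map L : Submodule ℂ (W → SetPart N b s → ℂ)) :
        Set (W → SetPart N b s → ℂ)) := by
    ext T
    constructor
    · rintro ⟨hT, hE⟩
      refine ⟨hT.mk' T, ?_, rfl⟩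
      intro g w
      funext P'
      show T (ρ g w) P' = T w (g⁻¹ • P')
      refine hE g w (g⁻¹ • P') P' ?_
      rw [← st_imP, ← SetPart.smul_coe, smul_inv_smul]
    · rintro ⟨T, hT, rfl⟩
      refine ⟨T.isLinear, ?_⟩
      intro g w P P' hP
      have e1 : P' = g • P := Subtype.ext (by rw [hP, SetPart.smul_coe, st_imP])
      have e2 : T (ρ g w) P' = T w (g⁻¹ • P') := congrFun (hT g w) P'
      show T (ρ g w) P' = T w P
      rw [e2, e1, inv_smul_smul]
  unfold homDim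
  rw [hset, Set.finrank, Submodule.span_eq]
  exact (LinearEquiv.finrank_eq (Submodule.equivMapOfInjective L hL _)).symm

theorem all_partitions (m n p q : ℕ) (hm : 1 ≤ m) (hp : 1 ≤ p) (hq : 1 ≤ q) (h : m * n = p * q)
    (H : (m ^ 5 ≤ n ∧ m ∣ p ∧ m ^ 4 ≤ q) ∨ (m ^ 5 ≤ n ∧ m ∣ q ∧ m ^ 4 ≤ p) ∨ (m ^ 5 ≤ p ∧ p ^ 5 ≤ q) ∨
      (m ^ 5 ≤ q ∧ q ^ 5 ≤ p) ∨ Relation.ReflTransGen (Step (m * n)) m p)
    (W : Type) [AddCommGroup W] [Module ℂ W] [FiniteDimensional ℂ W]
    (ρ : Representation ℂ (Equiv.Perm (Fin (m * n))) W) :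
    homDim ρ m n ≤ homDim ρ p q := by
  rw [homDim_eq, homDim_eq]
  have h' : m * n = q * p := by rw [h, Nat.mul_comm]
  rcases H with ⟨h1, h2, h3⟩ | ⟨h1, h2, h3⟩ | ⟨h1, h2⟩ | ⟨h1, h2⟩ | h1
  · exact finrank_le_of_permLe (permLe_dvd m n p q hm h hp h2 h3 h1).1 ρ
  · exact finrank_le_of_permLe (permLe_dvd m n q p hm h' hq h2 h3 h1).2 ρ
  · exact finrank_le_of_permLe (permLe_large m n p q hm h h1 h2).1 ρ
  · exact finrank_le_of_permLe (permLe_large m n q p hm h' h1 h2).2 ρ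
  · have hN : 1 ≤ m * n := by rw [h]; exact Nat.mul_pos hp hq
    have h2 := permLe_chains hN h1
    have h3 : m * n / m = n := Nat.mul_div_cancel_left n hm
    have h4 : m * n / p = q := by rw [h]; exact Nat.mul_div_cancel_left q hp
    rw [h3, h4] at h2
    exact finrank_le_of_permLe h2 ρ

theorem three_blocks (n p q : ℕ) (h : 3 * n = p * q) (hp : 1 ≤ p) (hq : 3 ≤ q) (hd : 3 ∣ p ∨ 9 ≤ p)
    (W : Type) [AddCommGroup W] [Module ℂ W] [FiniteDimensional ℂ W]
    (ρ : Representation ℂ (Equiv.Perm (Fin (3 * n))) W) :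
    homDim ρ 3 n ≤ homDim ρ p q := by
  rw [homDim_eq, homDim_eq]
  exact finrank_le_of_permLe (permLe_three n p q h hp hq hd) ρ

end Helper87.FK
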